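import Pool.Agent.W707.HM.Stm
import Pool.Agent.Helper188.Morrey.Basic

/-!
HM-PLT: rank-one convex functions which are positively homogeneous of degree less than one are
constant.
-/

set_option autoImplicit false

namespace Pool.Agent.W337.HM.Plt

open Set Filter Topology
open Pool.Agent.Helper188.Morrey (RankOneConvex det_smul_zero)
open Pool.Agent.W707.HM (Homog S_PLT)

lemma step {p : ℝ} {W : Matrix (Fin 2) (Fin 2) ℝ → ℝ} (hp : p < 1) (hH : Homog p W)
    (hW : RankOneConvex W) (F H : Matrix (Fin 2) (Fin 2) ℝ) (hd : H.det = 0) :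
    W (F + H) ≤ W F := by
  have hc := hW.continuous
  have hineq : ∀ c : ℝ, 0 < c → c ≤ 1 →
      W (F + H) ≤ (1 - c) * W F + c ^ (1 - p) * W (c • F + H) := by
    intro c hc0 hc1
    have h := hW.seg F (c⁻¹ • H) (det_smul_zero hd _) hc0.le hc1
    have e2 : F + c⁻¹ • H = c⁻¹ • (c • F + H) := by
      rw [smul_add, inv_smul_smul₀ hc0.ne']
    rw [smul_inv_smul₀ hc0.ne', e2, hH c⁻¹ (inv_pos.2 hc0), Real.inv_rpow hc0.le, ← mul_assoc] at h
    rw [Real.rpow_sub hc0, Real.rpow_one, div_eq_mul_inv]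
    exact h
  have h1 : Tendsto (fun c : ℝ => c ^ (1 - p)) (𝓝[>] 0) (𝓝 0) := by
    have h2 := (Real.continuous_rpow_const (q := 1 - p) (by linarith)).tendsto 0
    rw [Real.zero_rpow (by linarith)] at h2
    exact h2.mono_left nhdsWithin_le_nhds
  have h3 : Tendsto (fun c : ℝ => W (c • F + H)) (𝓝[>] 0) (𝓝 (W H)) := by
    have h4 : Continuous fun c : ℝ => W (c • F + H) :=
      hc.comp ((continuous_id.smul continuous_const).add continuous_const)
    have h5 := h4.tendsto 0
    simp only [zero_smul, zero_add] at h5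
    exact h5.mono_left nhdsWithin_le_nhds
  have h6 : Tendsto (fun c : ℝ => (1 - c) * W F) (𝓝[>] 0) (𝓝 (W F)) := by
    have h4 : Continuous fun c : ℝ => (1 - c) * W F := by fun_prop
    have h5 := h4.tendsto 0
    simp only [sub_zero, one_mul] at h5
    exact h5.mono_left nhdsWithin_le_nhds
  have h7 := h6.add (h1.mul h3)
  rw [zero_mul, add_zero] at h7
  refine ge_of_tendsto h7 ?_
  filter_upwards [Ioc_mem_nhdsGT (one_pos : (0 : ℝ) < 1)] with c hc
  exact hineq c hc.1 hc.2

lemma step_eq {p : ℝ} {W : Matrix (Fin 2) (Fin 2) ℝ → ℝ} (hp : p < 1) (hH : Homog p W)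
    (hW : RankOneConvex W) (F H : Matrix (Fin 2) (Fin 2) ℝ) (hd : H.det = 0) :
    W (F + H) = W F := by
  refine le_antisymm (step hp hH hW F H hd) ?_
  have h1 := step hp hH hW (F + H) ((-1 : ℝ) • H) (det_smul_zero hd _)
  have h2 : F + H + (-1 : ℝ) • H = F := by
    rw [neg_one_smul]; abel
  rwa [h2] at h1

theorem main : S_PLT := by
  intro p W hp hH hW A
  have e : A = (0 + !![A 0 0, 0; A 1 0, 0]) + !![0, A 0 1; 0, A 1 1] := by
    ext i j
    fin_cases i <;> fin_cases j <;> simp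
  rw [e, step_eq hp hH hW _ _ (by simp [Matrix.det_fin_two]),
    step_eq hp hH hW _ _ (by simp [Matrix.det_fin_two])]

end Pool.Agent.W337.HM.Plt
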